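import Pool.Agent.Helper64.FL.StH

/-! F1X: three vertices of a clique at `x` that are ends of gaps. -/

set_option autoImplicit false

namespace Pool.Agent.Helper64.FL

open Pool.Agent.Helper64.CT Pool.Agent.Helper64.DT
open Pool.Agent.Helper64.HG (Ovl Model Circ IC HellyCircle ChordModel)

theorem f1x_bool : ∀ xli yjli yix yiyj yjmi yimi xyj xyi xlj yilj yjx yjyi yimj yjmj : Bool,
    xor xli yjli = xor yix yiyj → xor yjmi yimi = xor xyj xyi → yjli = yjmi →
    xor xlj yilj = xor yjx yjyi → xor yimj yjmj = xor xyi xyj → yilj = yimj →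
    yiyj ≠ yjyi → xyi ≠ yix → xyj ≠ yjx →
    xor (xor xli yimi) xyi ≠ xor (xor xlj yjmj) xyj := by
  intro a1 a2 a3 a4 a5 a6 a7 a8 a9 a10 a11 a12 a13 a14 h1 h2 h3 h4 h5 h6 h7 h8 h9 h10
  subst h3 h6
  have e1 : a3 = !a8 := by
    revert h8
    cases a8 <;> cases a3 <;> simp
  have e2 : a11 = !a7 := by
    revert h9
    cases a7 <;> cases a11 <;> simp
  have e3 : a12 = !a4 := by
    revert h7
    cases a4 <;> cases a12 <;> simp
  subst e1 e2 e3
  revert h1 h2 h4 h5 h10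
  revert a1 a2 a4 a6 a7 a8 a9 a10 a14
  decide

theorem f1x_three : ∀ p q r : Bool, p ≠ q → q ≠ r → p ≠ r → False := by decide

theorem st_F1X (hN : ST_NJC) (hT : ST_TRN) : ST_F1X := by
  intro V G S x y l m hx h1 h2 h3 h4 hb
  obtain ⟨b, hb⟩ := hb
  have hNJ : NJ G S b := hb
  have key : ∀ i < 3, ∀ j < 3, i ≠ j →
      xor (xor (b x (l i)) (b (y i) (m i))) (b x (y i)) ≠
      xor (xor (b x (l j)) (b (y j) (m j))) (b x (y j)) := by
    intro i hi j hj hij
    obtain ⟨yiS, xyi, liS, lix, yili, miS, xmi⟩ := h1 i hi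
    obtain ⟨yjS, xyj, ljS, ljx, yjlj, mjS, xmj⟩ := h1 j hj
    obtain ⟨yij, liyj⟩ := h2 i hi j hj hij
    obtain ⟨yji, ljyi⟩ := h2 j hj i hi hij.symm
    have e1 := hT V G S b hNJ (y i) yiS x hx (y j) yjS (l i) liS xyi.symm yij xyj yili lix liyj
    have e2 := hT V G S b hNJ x hx (y j) yjS (y i) yiS (m i) miS xyj xyi yji xmi
      (h3 i hi j hj) (h3 i hi i hi)
    have e3 := hN V G S b hNJ (y j) yjS (l i) (m i) (h4 i hi j hj hij)
    have e4 := hT V G S b hNJ (y j) yjS x hx (y i) yiS (l j) ljS xyj.symm yji xyi yjlj ljx ljyi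
    have e5 := hT V G S b hNJ x hx (y i) yiS (y j) yjS (m j) mjS xyi xyj yij xmj
      (h3 j hj i hi) (h3 j hj j hj)
    have e6 := hN V G S b hNJ (y i) yiS (l j) (m j) (h4 j hj i hi hij.symm)
    have e7 := hNJ.1 (y i) yiS (y j) yjS yij
    have e8 := hNJ.1 x hx (y i) yiS xyi
    have e9 := hNJ.1 x hx (y j) yjS xyj
    exact f1x_bool _ _ _ _ _ _ _ _ _ _ _ _ _ _ e1 e2 e3 e4 e5 e6 e7 e8 e9
  exact f1x_three _ _ _ (key 0 (by norm_num) 1 (by norm_num) (by norm_num))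
    (key 1 (by norm_num) 2 (by norm_num) (by norm_num))
    (key 0 (by norm_num) 2 (by norm_num) (by norm_num))

end Pool.Agent.Helper64.FL
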