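import Pool.Agent.Helper64.FL.StC

/-! HC0: a cycle of connections with a vertex whose two rays have equal signs. -/

set_option autoImplicit false

namespace Pool.Agent.Helper64.FL

open Pool.Agent.Helper64.CT Pool.Agent.Helper64.DT
open Pool.Agent.Helper64.HG (Ovl Model Circ IC HellyCircle ChordModel)

theorem hc0_trans {V : Type} {G : SimpleGraph V} {z a b c : V} (h1 : Comp G z a b)
    (h2 : Comp G z b c) : Comp G z a c := by
  obtain ⟨ha, hb, r1⟩ := h1
  obtain ⟨hb', hc, r2⟩ := h2
  exact ⟨ha, hc, r1.trans r2⟩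

/-- all vertices of the cycle are distinct -/
theorem hc0_inj {V : Type} {m : ℕ} {q : ℕ → V} (hp : ∀ i, q (i + m) = q i)
    (hi : ∀ i j, i < j → j < i + m → q i ≠ q j) {s a b : ℕ} (ha : a < m) (hb : b < m)
    (hab : a ≠ b) : q (s + a) ≠ q (s + b) := by
  rcases Nat.lt_or_gt_of_ne hab with h | h
  · exact hi (s + a) (s + b) (by omega) (by omega)
  · exact (hi (s + b) (s + a) (by omega) (by omega)).symm

theorem hc0_mod {n j : ℕ} (hn : 2 ≤ n) :
    ((j % n) + 1 < n ∧ (j + 1) % n = j % n + 1) ∨ (j % n = n - 1 ∧ (j + 1) % n = 0) := by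
  have h1 : j % n < n := Nat.mod_lt _ (by omega)
  have h2 : (j + 1) % n = (j % n + 1) % n := by
    rw [Nat.mod_add_mod]
  by_cases h : j % n + 1 < n
  · left
    exact ⟨h, by rw [h2, Nat.mod_eq_of_lt h]⟩
  · right
    have h3 : j % n + 1 = n := by omega
    exact ⟨by omega, by rw [h2, h3, Nat.mod_self]⟩

theorem hc0_ne {n j k : ℕ} (hn : 2 ≤ n) (h1 : j + 1 < k) (h2 : k < j + n) :
    k % n ≠ j % n ∧ k % n ≠ (j + 1) % n := by
  constructor
  · intro h
    have h3 : (k - j) % n = 0 := by
      have : n ∣ k - j := (Nat.modEq_iff_dvd' (by omega : j ≤ k)).1 h.symm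
      exact Nat.mod_eq_zero_of_dvd this
    rw [Nat.mod_eq_of_lt (by omega)] at h3
    omega
  · intro h
    have h3 : (k - (j + 1)) % n = 0 := by
      have : n ∣ k - (j + 1) := (Nat.modEq_iff_dvd' (by omega : j + 1 ≤ k)).1 h.symm
      exact Nat.mod_eq_zero_of_dvd this
    rw [Nat.mod_eq_of_lt (by omega)] at h3
    omega

theorem st_HC0 (hB : ST_BCF) (hR : ST_RCX) (hX : ST_XSB) : ST_HC0 := by
  intro V G Q σ hE m q P u w hC hm hi hs
  obtain ⟨i, hi⟩ := hi
  obtain ⟨-, -, hc, hd, -⟩ := hB V G Q σ hE m q P u w hC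
  have hqi : q (i + m) = q i := hC.pq i
  have hqi1 : q (i + m + 1) = q (i + 1) := by
    have := hC.pq (i + 1)
    rwa [show i + 1 + m = i + m + 1 by ring] at this
  have hui : u (i + m) = u i := hC.pu i
  have hwi : w (i + m) = w i := hC.pw i
  have hwi1 : w (i + m + 1) = w (i + 1) := by
    have := hC.pw (i + 1)
    rwa [show i + 1 + m = i + m + 1 by ring] at this
  have hn : 3 ≤ m - 1 := by omega
  set n := m - 1 with hndef
  have hmn : m = n + 1 := by omega
  have hQ : ∀ j, q j ∈ Q := fun j => (hC.rU j).1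
  have hRc : Rcy G Q n (fun j => q (i + 1 + j % n)) (fun j => u (i + 1 + j % n))
      (fun j => w (i + 1 + j % n)) := by
    refine ⟨hn, ?_, ?_, ?_, ?_, ?_, ?_, ?_⟩
    · intro j
      simp only [Nat.add_mod_right]
    · intro j
      simp only [Nat.add_mod_right]
    · intro j
      simp only [Nat.add_mod_right]
    · intro j k hjk hk
      refine hc0_inj hC.pq hC.inj (lt_trans (Nat.mod_lt _ (by omega)) (by omega))
        (lt_trans (Nat.mod_lt _ (by omega)) (by omega)) ?_
      intro h
      have h3 : (k - j) % n = 0 := by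
        have : n ∣ k - j := (Nat.modEq_iff_dvd' (by omega : j ≤ k)).1 h
        exact Nat.mod_eq_zero_of_dvd this
      rw [Nat.mod_eq_of_lt (by omega)] at h3
      omega
    · intro j
      exact hC.rU _
    · intro j
      exact hC.rW _
    · intro j k hjk hk
      obtain ⟨hk1, hk2⟩ := hc0_ne (by omega : 2 ≤ n) hjk hk
      have hkn : k % n < n := Nat.mod_lt _ (by omega)
      have hjn : j % n < n := Nat.mod_lt _ (by omega)
      show Comp G (q (i + 1 + k % n)) (u (i + 1 + j % n)) (w (i + 1 + (j + 1) % n))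
      rcases hc0_mod (n := n) (j := j) (by omega) with ⟨h1, h2⟩ | ⟨h1, h2⟩
      · rw [h2] at hk2 ⊢
        have h5 := hc (i + 1 + j % n) (q (i + 1 + k % n)) (hQ _)
          (hc0_inj hC.pq hC.inj (by omega) (by omega) hk1)
          (by
            have := hc0_inj hC.pq hC.inj (s := i + 1) (a := k % n) (b := j % n + 1)
              (by omega) (by omega) hk2
            rwa [show i + 1 + (j % n + 1) = i + 1 + j % n + 1 by ring] at this)
        rwa [show i + 1 + (j % n + 1) = i + 1 + j % n + 1 by ring]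
      · rw [h2] at hk2 ⊢
        rw [h1] at hk1 ⊢
        have e1 : i + 1 + (n - 1) = i + n := by omega
        have e2 : i + n + 1 = i + m := by omega
        rw [e1, Nat.add_zero]
        have z1 : q (i + 1 + k % n) ≠ q (i + n) := by
          have := hc0_inj hC.pq hC.inj (s := i + 1) (a := k % n) (b := n - 1)
            (by omega) (by omega) hk1
          rwa [e1] at this
        have z2 : q (i + 1 + k % n) ≠ q (i + n + 1) := by
          have := hc0_inj hC.pq hC.inj (s := i) (a := 1 + k % n) (b := 0)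
            (by omega) (by omega) (by omega)
          rw [e2, hqi]
          rwa [show i + (1 + k % n) = i + 1 + k % n by ring, Nat.add_zero] at this
        have z3 : q (i + 1 + k % n) ≠ q (i + n + 2) := by
          have := hc0_inj hC.pq hC.inj (s := i + 1) (a := k % n) (b := 0)
            (by omega) (by omega) hk2
          rw [show i + n + 2 = i + m + 1 by omega, hqi1]
          rwa [Nat.add_zero] at this
        have c1 := hc (i + n) _ (hQ (i + 1 + k % n)) z1 z2
        have c2 := (hd (i + n) _ (hQ (i + 1 + k % n)) z1 z2 z3).1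
          (by rw [e2, hwi, hui]; exact hi.symm)
        have c3 := hc (i + n + 1) _ (hQ (i + 1 + k % n)) z2 z3
        have c4 := hc0_trans (hc0_trans c1 c2) c3
        rwa [show i + n + 1 + 1 = i + m + 1 by omega, hwi1] at c4
  have hsum : xs (fun j => xor (σ (u (i + 1 + j % n))) (σ (w (i + 1 + j % n)))) n = false := by
    have hper : ∀ j, (fun j => xor (σ (u j)) (σ (w j))) (j + m) =
        (fun j => xor (σ (u j)) (σ (w j))) j := by
      intro j
      simp only [hC.pu j, hC.pw j]
    have s1 := (hX (fun j => xor (σ (u j)) (σ (w j))) (fun _ => false) m).2.1 hper i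
    rw [hs] at s1
    have s2 := (hX (fun j => (fun j => xor (σ (u j)) (σ (w j))) (j + i)) (fun _ => false) n).2.2.1
    rw [← hmn, s1] at s2
    have s3 := (hX (fun j => xor (σ (u (i + 1 + j % n))) (σ (w (i + 1 + j % n))))
      (fun j => xor (σ (u (j + 1 + i))) (σ (w (j + 1 + i)))) n).2.2.2.1
      (by
        intro j hj
        show xor (σ (u (i + 1 + j % n))) (σ (w (i + 1 + j % n))) =
          xor (σ (u (j + 1 + i))) (σ (w (j + 1 + i)))
        rw [Nat.mod_eq_of_lt hj, show i + 1 + j = j + 1 + i by ring])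
    rw [s3]
    have s4 : (fun j => xor (σ (u j)) (σ (w j))) (0 + i) = false := by
      show xor (σ (u (0 + i))) (σ (w (0 + i))) = false
      rw [Nat.zero_add, hi, Bool.xor_self]
    simp only [s4, Bool.false_xor] at s2
    exact s2.symm
  obtain ⟨j, hj⟩ := hR V G Q σ hE n _ _ _ hRc hsum (q i) (hQ i)
  have hjn : j % n < n := Nat.mod_lt _ (by omega)
  have := hc0_inj hC.pq hC.inj (s := i) (a := 1 + j % n) (b := 0)
    (by omega) (by omega) (by omega)
  rw [show i + (1 + j % n) = i + 1 + j % n by ring, Nat.add_zero] at this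
  exact this hj

end Pool.Agent.Helper64.FL
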